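import Pool.Agent.H293R3.BC.Count

/-!
# The balance constant of posets of width `w` stays `c / w` away from one half

With `δ_w` the infimum of the balance constants of the finite posets of width `w`, as in the
problem, `δ_w ≤ 1/2 - 1/(12 w - 8)` for every `w ≥ 1`.  In particular `δ_w < 1/2` for every `w`, as
the strict growth asked for in the problem requires, and if `δ_w → 1/2` (Kahn and Saks) then the
convergence is not faster than `1/w`.

The posets are built by repeatedly adding one or two least elements and then an element which is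
incomparable to everything; they are series-parallel and have at most `3 w - 2` elements.
-/

set_option autoImplicit false

namespace Pool.Agent.Results.MP_c890a7_co.BalanceUpperBound

open Pool.Agent.H293R3.BC

theorem result :
    ∀ δ : ℕ → ℝ,
      (∀ w : ℕ, δ w = sInf {d : ℝ | ∃ (n : ℕ) (r : Fin n → Fin n → Prop),
          (∀ a, r a a) ∧ (∀ a b c, r a b → r b c → r a c) ∧
          (∀ a b, r a b → r b a → a = b) ∧
          (∃ s : Finset (Fin n), s.card = w ∧ ∀ a ∈ s, ∀ b ∈ s, a ≠ b → ¬ r a b) ∧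
          (∀ s : Finset (Fin n), (∀ a ∈ s, ∀ b ∈ s, a ≠ b → ¬ r a b) → s.card ≤ w) ∧
          d = sSup {t : ℝ | ∃ x y : Fin n, ¬ r x y ∧ ¬ r y x ∧
            t = min
              ((Nat.card {σ : Equiv.Perm (Fin n) //
                  (∀ a b, r a b → σ a ≤ σ b) ∧ σ x < σ y} : ℝ) /
                (Nat.card {σ : Equiv.Perm (Fin n) // ∀ a b, r a b → σ a ≤ σ b} : ℝ))
              ((Nat.card {σ : Equiv.Perm (Fin n) //
                  (∀ a b, r a b → σ a ≤ σ b) ∧ σ y < σ x} : ℝ) /
                (Nat.card {σ : Equiv.Perm (Fin n) // ∀ a b, r a b → σ a ≤ σ b} : ℝ))}}) →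
      ∀ w : ℕ, 1 ≤ w → δ w ≤ 1 / 2 - 1 / (12 * (w : ℝ) - 8) := by
  classical
  intro δ hδ w hw
  obtain ⟨n, r, -, -, h⟩ := exists_poset w hw
  have hb : (0 : ℝ) ≤ 1 / 2 - 1 / (12 * (w : ℝ) - 8) := by
    have hw1 : (1 : ℝ) ≤ w := by exact_mod_cast hw
    have : 1 / (12 * (w : ℝ) - 8) ≤ 1 / 4 := by
      apply one_div_le_one_div_of_le (by norm_num)
      linarith
    linarith
  rw [hδ w]
  refine csInf_le_of_le ⟨0, ?_⟩ ⟨n, r, h.po.1, h.po.2.1, h.po.2.2, h.wid, h.wid_le, rfl⟩ ?_
  · rintro d ⟨m, q, -, -, -, -, -, rfl⟩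
    apply Real.sSup_nonneg
    rintro t ⟨x, y, -, -, rfl⟩
    exact le_min (by positivity) (by positivity)
  · apply Real.sSup_le _ hb
    rintro t ⟨x, y, hxy, hyx, rfl⟩
    rw [card_E, card_A, card_A]
    exact h.bal x y hxy hyx

end Pool.Agent.Results.MP_c890a7_co.BalanceUpperBound
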