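import Pool.Agent.H931R3.Bal15

/-!
# Minimal balance constants of series-parallel posets by width

In the class of series-parallel posets the infimum of the balance constants is `0` for width one,
`1/3` for width two, `8/21` for width three and at least `8/21` for every larger width.  For all
posets: a gap `c ≤ 8/21` for irreducible posets gives the bound `c` for every poset of width at
least three.
-/

namespace Pool.Agent.Results.MP_c890a7_co.SeriesParallelWidths

open Pool.Agent.H13R3.WB Pool.Agent.H931R3.Bal

theorem result :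
    dSP 1 = 0 ∧ dSP 2 = 1 / 3 ∧ dSP 3 = 8 / 21 ∧ (∀ w : ℕ, 3 ≤ w → 8 / 21 ≤ dSP w) ∧
    (∀ w : ℕ, 3 ≤ w → ∀ (P : Type) [Fintype P] [PartialOrder P], SeriesParallel P →
      HasWidth P w → 8 / 21 ≤ balance P) ∧
    (∀ c : ℝ, c ≤ 8 / 21 →
      (∀ (P : Type) [Fintype P] [PartialOrder P] [Nonempty P], Irreducible P →
        InD P ∨ c ≤ balance P) →
      ∀ w : ℕ, 3 ≤ w → ∀ (P : Type) [Fintype P] [PartialOrder P], HasWidth P w →
        c ≤ balance P) := by
  refine ⟨dSP_one, dSP_two, dSP_three, dSP_large, ?_, ?_⟩
  · intro w hw P _ _ h1 h2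
    exact sp_width h1 hw h2
  · intro c hc h w hw P _ _ hP
    obtain ⟨s, hs, hcard⟩ := hP.1
    have hne : Nonempty P := by
      obtain ⟨x, _⟩ := Finset.card_pos.1 (show 0 < s.card by omega)
      exact ⟨x⟩
    rcases reduction hc h P with h3 | h3
    · have := InD_width_le h3 s hs
      omega
    · exact h3

end Pool.Agent.Results.MP_c890a7_co.SeriesParallelWidths
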